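import Pool.Agent.Lib.helper9.ParB
import Pool.Agent.Lib.helper9.SpB

namespace Pool.Agent.Results.MP_4249f6_lc.IffCollapse

open Pool.Agent.Cx Pool.Agent.Par Matrix Polynomial

/-- a rational number: numerator and denominator, both in binary -/
abbrev Q := ℤ × ℤ

noncomputable def val (q : Q) : ℝ := q.1 / q.2

/-- the point with the rational coordinates `a` -/
noncomputable def pt (n : ℕ) (a : List Q) : Fin n → ℝ := fun j => val (a.getD j (0, 1))

/-- a dimension `n` and the rows `(a, b)` of a system of inequalities `a · x ≤ b` -/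
abbrev Sys := ℕ × List (List Q × Q)

def body (I : Sys) : Set (Fin I.1 → ℝ) := {x | ∀ r ∈ I.2, pt I.1 r.1 ⬝ᵥ x ≤ val r.2}

/-- a well-formed system whose solution set is an invertible affine image of the unit cube -/
def IsPar (I : Sys) : Prop := (∀ r ∈ I.2, r.1.length = I.1 ∧ ∀ q ∈ r.2 :: r.1, 0 < q.2) ∧
  ∃ (c : Fin I.1 → ℝ) (T : Matrix (Fin I.1) (Fin I.1) ℝ), T.det ≠ 0 ∧
    body I = (fun t => c + T *ᵥ t) '' Set.Icc 0 1

/-- `v` lists the vertices of a `j`-simplex contained in `P` -/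
def Simplex {j n : ℕ} (P : Set (Fin n → ℝ)) (v : Fin (j + 1) → Fin n → ℝ) : Prop :=
  AffineIndependent ℝ v ∧ convexHull ℝ (Set.range v) ⊆ P

/-- the Gram determinant of the edge vectors, that is `(j! vol_j)^2` -/
def V2 {j n : ℕ} (v : Fin (j + 1) → Fin n → ℝ) : ℝ :=
  (of fun a b : Fin j => (v a.succ - v 0) ⬝ᵥ (v b.succ - v 0)).det

/-- a large `j`-simplex exists -/
def Has (j : ℕ) (I : Sys) (x : ℝ) : Prop :=
  ∃ v : Fin (j + 1) → Fin I.1 → ℝ, Simplex (body I) v ∧ x ≤ V2 v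

/-- the decision version -/
def Yes (γ : ℕ → ℕ) (I : Sys × Q) : Prop :=
  IsPar I.1 ∧ 0 < I.2.1 ∧ 0 < I.2.2 ∧ Has (γ I.1.1) I.1 (val I.2)

/-- `O` solves the search problem for `γ n = n`: it returns the vertices of a largest `n`-simplex -/
def Solves (O : List Bool → List Bool) : Prop := ∀ I : Sys, IsPar I → ∃ s : List (List Q),
  O (enc I) = enc s ∧ Simplex (body I) (fun i : Fin (I.1 + 1) => pt I.1 (s.getD i [])) ∧
    ∀ v : Fin (I.1 + 1) → Fin I.1 → ℝ, Simplex (body I) v →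
      V2 v ≤ V2 fun i : Fin (I.1 + 1) => pt I.1 (s.getD i [])

def clr (l : List Q) : List ℤ := (List.range l.length).map fun j =>
  ((List.range l.length).map fun k => if k = j then (l.getD k (0, 1)).1 else (l.getD k (0, 1)).2).prod

def rows (I : Sys) : List Row := I.2.map fun r => ((clr (r.2 :: r.1)).tail, (clr (r.2 :: r.1)).getD 0 0)

lemma clr_spec {l : List Q} (h : ∀ q ∈ l, 0 < q.2) :
    ∃ S : ℝ, 0 < S ∧ ∀ j, ((clr l).getD j 0 : ℤ) = S * val (l.getD j (0, 1)) := by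
  have hp : ∀ k, (0 : ℝ) < (l.getD k (0, 1)).2 := fun k => by
    rcases lt_or_ge k l.length with c | c
    · rw [List.getD_eq_getElem _ _ c]; exact_mod_cast h _ (List.getElem_mem c)
    · rw [List.getD_eq_default _ _ c]; simp
  refine ⟨∏ k ∈ Finset.range l.length, (l.getD k (0, 1)).2, Finset.prod_pos fun k _ => hp k, fun j => ?_⟩
  rcases lt_or_ge j l.length with c | c
  · have m := Finset.mem_range.2 c
    rw [clr, List.getD_eq_getElem _ _ (by simpa), List.getElem_map, List.getElem_range,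
      ← List.prod_toFinset _ List.nodup_range, List.toFinset_range, ← Finset.mul_prod_erase _ _ m,
      ← Finset.mul_prod_erase _ _ m, Finset.prod_congr rfl fun k hk => if_neg (Finset.ne_of_mem_erase hk),
      if_pos rfl, val]
    have := (hp j).ne'
    push_cast; field_simp
  · rw [List.getD_eq_default _ _ c, List.getD_eq_default _ _ (by simpa [clr])]; simp [val]

lemma body_eq {I : Sys} (h : ∀ r ∈ I.2, r.1.length = I.1 ∧ ∀ q ∈ r.2 :: r.1, 0 < q.2) :
    body I = pol I.1 (rows I) := by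
  ext x
  simp only [body, pol, rows, Set.mem_ofPred_eq, List.forall_mem_map]
  refine forall₂_congr fun r hr => ?_
  obtain ⟨S, h0, e⟩ := clr_spec (h r hr).2
  have : vec I.1 (clr (r.2 :: r.1)).tail = S • pt I.1 r.1 := funext fun j => by
    simpa [Par.vec, pt] using e (j + 1)
  rw [this, e 0, smul_dotProduct, smul_eq_mul, mul_le_mul_iff_right₀ h0]; rfl

def OK (I : Sys) : Prop := (∀ r ∈ I.2, r.1.length = I.1 ∧ ∀ q ∈ r.2 :: r.1, 0 < q.2) ∧ Valid I.1 (rows I)

noncomputable def bs (I : Sys) : List Sl := bas I.1 (rows I)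

noncomputable def W (I : Sys) : ℤ := ((List.range I.1).map fun k => (row (bs I) k).2.2).prod

lemma OK.spec {I : Sys} (h : OK I) : ∃ c T, T.det ≠ 0 ∧ body I = par c T ∧ T.det = W I / dt I.1 (bs I) ∧
    ∀ t, Mr I.1 (bs I) *ᵥ (c + T *ᵥ t) = fun k => lv I.1 (bs I) k + wv I.1 (bs I) k * t k := by
  obtain ⟨h1, h2, h3⟩ := h.2.sound
  obtain ⟨a, b, c, d⟩ := slabs_eq (l := lv I.1 (bs I)) h1 h2
  refine ⟨_, _, b, ((body_eq h.1).trans h3).trans c, a.trans ?_, d⟩
  rw [dt_cast, W, ← List.prod_toFinset _ List.nodup_range, List.toFinset_range, Finset.prod_range]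
  push_cast; rfl

lemma ok_iff {I : Sys} : IsPar I ↔ OK I :=
  ⟨fun ⟨h, _, _, a, b⟩ => ⟨h, valid_of a ((body_eq h).symm.trans b)⟩,
    fun h => let ⟨c, T, a, b, _⟩ := h.spec; ⟨h.1, c, T, a, b⟩⟩

lemma V2_eq {n : ℕ} (v : Fin (n + 1) → Fin n → ℝ) : V2 v = ed v ^ 2 := by
  rw [sq, ed]; nth_rewrite 2 [← det_transpose]; rw [← det_mul]; rfl

noncomputable def E (n : ℕ) : Fin (n + 1) → Fin n → ℝ := fun i j => if (cube_opt n).choose i j then 1 else 0

lemma opt {n : ℕ} {c : Fin n → ℝ} {T : Matrix (Fin n) (Fin n) ℝ} (hT : T.det ≠ 0) :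
    Simplex (par c T) (fun i => c + T *ᵥ E n i) ∧ V2 (fun i => c + T *ᵥ E n i) = ed (E n) ^ 2 * T.det ^ 2 ∧
      ∀ v : Fin (n + 1) → Fin n → ℝ, Simplex (par c T) v → V2 v ≤ V2 fun i => c + T *ᵥ E n i := by
  have h := (cube_opt n).choose_spec
  have h1 := h (Fin.cons 0 fun a : Fin n => Pi.single a 1) fun i j => by
    cases i using Fin.cases <;> simp [Pi.single_apply]; split_ifs <;> simp
  rw [ed_std] at h1
  refine ⟨⟨ed_ind ?_, convexHull_min ?_ ?_⟩, by rw [V2_eq, ed_map, mul_pow], fun v hv => ?_⟩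
  · rw [ed_map]
    exact mul_ne_zero (fun e => by erw [e] at h1; norm_num at h1) hT
  · rintro _ ⟨i, rfl⟩
    exact (mem_par hT).2 fun j => by unfold E; split_ifs <;> simp
  · have := ((convex_Icc 0 1).linear_image (mulVecLin T)).translate c
    rwa [Set.image_image] at this
  · choose u hu e using fun i => hv.2 (subset_convexHull ℝ _ ⟨i, rfl⟩)
    rw [← funext e, V2_eq, V2_eq, ed_map, ed_map, mul_pow, mul_pow]
    exact mul_le_mul_of_nonneg_right (h u fun i j => ⟨(hu i).1 j, (hu i).2 j⟩) (sq_nonneg _)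

noncomputable def key (I : Sys × Q) : ℝ :=
  (I.2.1 * (dt I.1.1 (bs I.1) * dt I.1.1 (bs I.1)) : ℤ) / (max (I.2.2 * (W I.1 * W I.1)) 1 : ℤ)

lemma has_iff {I : Sys × Q} (h : OK I.1) (h0 : 0 < I.2.2) :
    Has I.1.1 I.1 (val I.2) ↔ key I ≤ ed (E I.1.1) ^ 2 := by
  obtain ⟨c, T, a, b, e, -⟩ := h.spec
  obtain ⟨h1, h2, h3⟩ := opt (c := c) a
  have hW : W I.1 ≠ 0 := fun c => a (by simp [e, c])
  have hD : (dt I.1.1 (bs I.1) : ℝ) ≠ 0 := by exact_mod_cast h.2.1
  have : key I = val I.2 / T.det ^ 2 := by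
    rw [key, max_eq_left (mul_pos h0 (mul_self_pos.2 hW)), e, val]
    have : (W I.1 : ℝ) ≠ 0 := by exact_mod_cast hW
    push_cast; field_simp
  rw [this, div_le_iff₀ (by positivity), ← h2, Has, b]
  exact ⟨fun ⟨v, x, y⟩ => y.trans (h3 v x), fun x => ⟨_, h1, x⟩⟩

section
variable {α : Type} [Enc α] {I : α → Sys}

@[fun_prop] lemma pt_rows (h : PT I) : PT fun a => rows (I a) := by unfold rows clr; fun_prop

@[fun_prop] lemma pt_bs (h : PT I) : PT fun a => bs (I a) := by unfold bs; fun_prop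

@[fun_prop] lemma pt_W (h : PT I) : PT fun a => W (I a) := by unfold W; fun_prop

@[fun_prop] lemma pp_ok (h : PT I) : PP fun a => OK (I a) :=
  PP.and (PP.ball (PP.and (by fun_prop) (PP.ball (by fun_prop) (by fun_prop))) (by fun_prop)) (by fun_prop)

def dc (x : List Bool) : Sys × Q := decode x

def ds (x : List Bool) : Sys := decode x

@[fun_prop] lemma pt_dc {x : α → List Bool} (h : PT x) : PT fun a => dc (x a) := h.decode

@[fun_prop] lemma pt_ds {x : α → List Bool} (h : PT x) : PT fun a => ds (x a) := h.decode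

lemma dc_eq (x : List Bool) : decode x = dc x := rfl

@[simp] lemma ds_enc (I : Sys) : ds (enc I) = I := by simp [ds]

attribute [irreducible] dc ds

end

lemma collapse (H : NPHard (Lang (Yes fun n => n))) : ∀ L, InNP L → InP L := by
  classical
  let V := fun x : List Bool => enc (dc x) = x ∧ OK (dc x).1 ∧
    0 < (dc x).2.1 ∧ 0 < (dc x).2.2
  have e : ∀ x, x ∈ Lang (Yes fun n => n) ↔ V x ∧ key (dc x) ≤ ed (E (dc x).1.1) ^ 2 :=
    fun x => by
    rw [mem_Lang', dc_eq, Yes, ok_iff]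
    exact ⟨fun ⟨a, b, c, d, f⟩ => ⟨⟨a, b, c, d⟩, (has_iff b d).1 f⟩,
      fun ⟨⟨a, b, c, d⟩, f⟩ => ⟨a, b, c, d, (has_iff b d).2 f⟩⟩
  refine sparse (c := fun x => if V x then (dc x).1.1 + 1 else 0)
    (k := fun x => key (dc x)) (PP.ite (by unfold V; fun_prop) (by fun_prop) (by fun_prop))
    (pp_div (by fun_prop) (by fun_prop) (by fun_prop) (by fun_prop) (by simp) (by simp))
    (fun x y a b c => ?_) H
  rw [e] at c ⊢
  rw [if_pos c.1] at a
  split_ifs at a with h
  · exact ⟨h, Nat.succ_injective a ▸ b.trans c.2⟩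

noncomputable def out (I : Sys) (A : List (List ℤ)) : List (List Q) :=
  (List.range (I.1 + 1)).map fun i => (List.range I.1).map fun j =>
    ((toM I.1 (mkM I.1 fun a b => if b = j then (row (bs I) a).2.1 + (row (bs I) a).2.2 * enz A i a
      else (row (bs I) a).1.getD b 0)).det, dt I.1 (bs I))

open Classical in
noncomputable def adv (n : ℕ) : List (List ℤ) := mkM (n + 1) fun i j =>
  if ∃ (hi : i < n + 1) (hj : j < n), (cube_opt n).choose ⟨i, hi⟩ ⟨j, hj⟩ then 1 else 0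

lemma solver : ∃ O, FPPoly O ∧ Solves O := by
  refine ⟨_, fppoly_of (g := fun z : List Bool × List (List (List ℤ)) =>
    out (ds z.1) (z.2.getD (ds z.1).1 [])) (by unfold out mkM; beta_reduce; fun_prop)
    (fun m => (List.range m).map adv) (X * ((X + 1) * ((X + 1) * 10 + 2) + 2) + 1) fun m => ?_, fun I h => ?_⟩
  · refine (size_list_le _ ((m + 1) * ((m + 1) * 10 + 2) + 1) fun w hw => ?_).trans (by simp [add_assoc])
    obtain ⟨k, hk, rfl⟩ := List.mem_map.1 hw
    have := List.mem_range.1 hk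
    refine (size_mkM (k := 1) fun i _ j _ => by split_ifs <;> simp).trans
      (?_ : (k + 1) * ((k + 1) * 10 + 2) + 1 ≤ _)
    gcongr
  · obtain ⟨c, T, a, b, -, e⟩ := (ok_iff.1 h).spec
    have hD : (Mr I.1 (bs I)).det ≠ 0 := (ok_iff.1 h).2.sound.1
    have hn : I.1 < (enc I).length := by
      have : size I = size I.1 + size I.2 + 1 := size_pair _ _
      simp [size_nat] at this; unfold size at this; omega
    have : (fun i : Fin (I.1 + 1) => pt I.1 ((out I (adv I.1)).getD i [])) =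
        fun i => c + T *ᵥ E I.1 i := funext fun i => by
      refine mulVec_injective_of_isUnit ((isUnit_iff_isUnit_det _).2 hD.isUnit) ?_
      have : pt I.1 ((out I (adv I.1)).getD i []) = (Mr I.1 (bs I)).det⁻¹ • cramer (Mr I.1 (bs I))
          fun k => lv I.1 (bs I) k + wv I.1 (bs I) k * E I.1 i k := funext fun j => by
        simp only [pt, out, List.getD_eq_getElem?_getD, List.getElem?_map, List.getElem?_range i.2,
          List.getElem?_range j.2, Option.map_some, Option.getD_some, val, dt_cast, Pi.smul_apply,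
          cramer_apply, smul_eq_mul, inv_mul_eq_div, Int.cast_det]
        congr 2; ext x y
        have : (enz (adv I.1) i x : ℝ) = E I.1 i x := by
          rw [adv, enz_mkM _ i.2 (by omega)]; simp [E, Nat.lt_succ_iff.1 i.2]
        by_cases c : y = j <;> simp [toM, enz_mkM, c, Fin.ext_iff.not.1, Mr, Par.vec, lv, wv, this]
      change Mr I.1 (bs I) *ᵥ _ = Mr I.1 (bs I) *ᵥ _
      rw [e, this, mulVec_smul, mulVec_cramer, smul_smul, inv_mul_cancel₀ hD, one_smul]
    refine ⟨out I (adv I.1), by simp [hn], ?_⟩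
    rw [this, b]
    exact ⟨(opt a).1, (opt a).2.2⟩

lemma yes1 {γ : ℕ → ℕ} (h : γ 1 = 1) :
    Yes γ ((1, [([(1, 1)], (1, 1)), ([(-1, 1)], (0, 1))]), (1, 1)) := by
  have b : body (1, [([(1, 1)], (1, 1)), ([(-1, 1)], (0, 1))]) = par 0 1 := by
    ext x; simp [body, par, pt, val, dotProduct, Pi.le_def, and_comm]
  refine ⟨⟨by simp, 0, 1, by simp, b⟩, one_pos, one_pos, ?_⟩
  rw [h, Has, b]
  refine ⟨_, (opt (by simp)).1, le_trans ?_ ((opt (by simp)).2.2 (Fin.cons 0 fun a => Pi.single a 1)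
    ⟨ed_ind (by simp [ed_std]), convexHull_min ?_ (by simpa [par] using convex_Icc 0 1)⟩)⟩
  · simp [V2_eq, ed_std, val]
  · rintro _ ⟨i, rfl⟩
    fin_cases i <;> simp [par, Pi.le_def]

theorem result :
    ((∀ γ : ℕ → ℕ, (∀ n, 1 ≤ n → 1 ≤ γ n ∧ γ n ≤ n) → NPHard (Lang (Yes γ))) ↔
      ∀ L, InNP L → InP L) ∧
    (∃ O, FPPoly O ∧ Solves O) ∧
    ((∀ L, InNP L → ∀ O, Solves O → Cook L O) → ∀ L, InNP L → InPPoly L) := by
  refine ⟨⟨fun h => collapse (h _ fun n hn => ⟨hn, le_rfl⟩), fun h γ hγ L hL => ?_⟩, solver,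
    fun h L hL => let ⟨O, a, b⟩ := solver; (h L hL O b).ppoly a⟩
  obtain ⟨f, hf, e⟩ := (h L hL).pt
  refine ⟨_, polyTime_of_PT (g := fun x => bif f x then
    ((1, [([(1, 1)], (1, 1)), ([(-1, 1)], (0, 1))]), (1, 1)) else (((0, []), (0, 0)) : Sys × Q)) (by fun_prop),
    fun x => (e x).trans (Iff.trans ?_ mem_Lang.symm)⟩
  cases f x
  · simp [Yes]
  · exact iff_of_true rfl (yes1 (le_antisymm (hγ 1 le_rfl).2 (hγ 1 le_rfl).1))

end Pool.Agent.Results.MP_4249f6_lc.IffCollapse
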